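import Pool.Agent.Helper99.PG.Goals

/-!
PROJECT C2, packet PG-CD: the determinant of a composite.
-/

namespace Pool.Agent.Helper55.PG

open Pool.Agent.Helper99.PG
open Matrix

section

variable {V : Type} [Fintype V] [DecidableEq V] {ι : V → Type} [∀ v, Fintype (ι v)]
  [∀ v, DecidableEq (ι v)]

/-- the injection of the inputs -/
def inP (s1 s2 : ∀ v, ι v) (c1 c2 : V → ℝ) : Matrix (Σ v, ι v) (Port V) ℝ := fun i p =>
  if i = ⟨p.1, if p.2 then s1 p.1 else s2 p.1⟩ then (if p.2 then c1 p.1 else c2 p.1) else 0

/-- the outputs -/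
def outQ (up dn : V → Option V) (r1 r2 : ∀ v, ι v) : Matrix (Port V) (Σ v, ι v) ℝ := fun p j =>
  if p.2 then (up p.1).elim 0 (fun w => if j = ⟨w, r1 w⟩ then 1 else 0)
  else (dn p.1).elim 0 (fun w => if j = ⟨w, r2 w⟩ then 1 else 0)

/-- the connection of ports -/
def conN (up dn : V → Option V) : Matrix (Port V) (Port V) ℝ := fun p q =>
  if p.2 then (if q.2 then (if up p.1 = some q.1 then 1 else 0) else 0)
  else (if q.2 then 0 else (if dn p.1 = some q.1 then 1 else 0))

/-- the response of the nodes -/
def resS (f : Bool → Bool → V → ℝ) : Matrix (Port V) (Port V) ℝ := fun p q =>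
  if p.1 = q.1 then f p.2 q.2 p.1 else 0

/-- row operations -/
def rowE (x : ℝ) (d : V → ℝ) : Matrix (Port V) (Port V) ℝ := fun p q =>
  if p.1 = q.1 then (if p.2 then (if q.2 then 1 else x) else (if q.2 then 0 else d p.1)) else 0

theorem det_rowE (x : ℝ) (d : V → ℝ) : (rowE x d).det = ∏ v, d v := by
  have h1 : (rowE x d) = (Matrix.blockDiagonal fun v => (fun a b : Bool =>
      if a then (if b then (1:ℝ) else x) else (if b then 0 else d v) :
        Matrix Bool Bool ℝ)).submatrix (Equiv.prodComm V Bool) (Equiv.prodComm V Bool) := by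
    ext p q
    obtain ⟨v, a⟩ := p
    obtain ⟨w, b⟩ := q
    simp [rowE, Matrix.blockDiagonal_apply]
  rw [h1, Matrix.det_submatrix_equiv_self, Matrix.det_blockDiagonal]
  refine Finset.prod_congr rfl fun v _ => ?_
  rw [Matrix.det_of_isLowerTriangular]
  · simp
  · intro a b hab
    cases a <;> cases b
    · exact absurd hab (lt_irrefl _)
    · rfl
    · exact absurd hab (by decide)
    · exact absurd hab (lt_irrefl _)

/-- determinant of a block diagonal matrix -/
theorem det_bd (A : ∀ v, Matrix (ι v) (ι v) ℝ) :
    (Matrix.blockDiagonal' A).det = ∏ v, (A v).det := by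
  letI : LinearOrder V := LinearOrder.lift' (Fintype.equivFin V) (Equiv.injective _)
  rw [(Matrix.blockTriangular_blockDiagonal' A).det_fintype]
  refine Finset.prod_congr rfl fun k _ => ?_
  let e : ι k ≃ {a : Σ v, ι v // a.1 = k} := Equiv.ofBijective (fun i => ⟨⟨k, i⟩, rfl⟩) (by
    constructor
    · intro i j hij
      simpa using hij
    · rintro ⟨⟨v, i⟩, hv⟩
      obtain rfl : v = k := hv
      exact ⟨i, rfl⟩)
  rw [← Matrix.det_submatrix_equiv_self e]
  congr 1
  ext i j
  exact Matrix.blockDiagonal'_apply_eq A k i j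

/-- block diagonal over the ports -/
def solH (h : ∀ v, Bool → ι v → ℝ) : Matrix (Σ v, ι v) (Port V) ℝ := fun i q =>
  if i.1 = q.1 then h i.1 q.2 i.2 else 0

/-- `Q` times a matrix that is block diagonal over the ports -/
theorem outQ_mul (up dn : V → Option V) (r1 r2 : ∀ v, ι v) (h : ∀ v, Bool → ι v → ℝ) :
    outQ up dn r1 r2 * solH h =
    conN up dn * resS fun a b v => h v b (if a then r1 v else r2 v) := by
  ext p q
  obtain ⟨v, a⟩ := p
  obtain ⟨w, b⟩ := q
  rw [Matrix.mul_apply, Matrix.mul_apply]
  cases a
  · cases hd : dn v with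
    | none => simp [outQ, conN, hd]
    | some u =>
      rw [Finset.sum_eq_single (⟨u, r2 u⟩ : Σ v, ι v),
        Finset.sum_eq_single ((u, false) : Port V)]
      · simp [outQ, conN, hd, resS, solH]
      · rintro ⟨u', c⟩ _ hne
        cases c
        · have : u ≠ u' := fun h => hne (by rw [h])
          simp [conN, hd, this]
        · simp [conN]
      · intro h
        exact absurd (Finset.mem_univ _) h
      · intro j _ hj
        simp [outQ, hd, hj]
      · intro h
        exact absurd (Finset.mem_univ _) h
  · cases hd : up v with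
    | none => simp [outQ, conN, hd]
    | some u =>
      rw [Finset.sum_eq_single (⟨u, r1 u⟩ : Σ v, ι v),
        Finset.sum_eq_single ((u, true) : Port V)]
      · simp [outQ, conN, hd, resS, solH]
      · rintro ⟨u', c⟩ _ hne
        cases c
        · simp [conN]
        · have : u ≠ u' := fun h => hne (by rw [h])
          simp [conN, hd, this]
      · intro h
        exact absurd (Finset.mem_univ _) h
      · intro j _ hj
        simp [outQ, hd, hj]
      · intro h
        exact absurd (Finset.mem_univ _) h

/-- the composite matrix -/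
theorem compMat_eq (up dn : V → Option V) (A : ∀ v, Matrix (ι v) (ι v) ℝ)
    (s1 s2 r1 r2 : ∀ v, ι v) (c1 c2 : V → ℝ) :
    compMat up dn A s1 s2 r1 r2 c1 c2 =
      Matrix.blockDiagonal' A - inP s1 s2 c1 c2 * outQ up dn r1 r2 := by
  rw [compMat, sub_sub]
  congr 1
  ext i j
  rw [Matrix.mul_apply, Fintype.sum_prod_type, Matrix.add_apply, Matrix.sum_apply,
    Matrix.sum_apply, ← Finset.sum_add_distrib]
  refine Finset.sum_congr rfl fun v _ => ?_
  rw [Fintype.sum_bool]
  congr 1
  · cases hu : up v with
    | none => simp [outQ, hu]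
    | some u =>
      simp only [Option.elim, Matrix.single_apply, inP, outQ, hu, if_true, ite_mul, mul_ite,
        mul_one, mul_zero, zero_mul]
      by_cases h1 : i = ⟨v, s1 v⟩
      · by_cases h2 : j = ⟨u, r1 u⟩
        · simp [h1, h2]
        · simp [h1, h2, eq_comm]
      · simp [h1, eq_comm]
  · cases hu : dn v with
    | none => simp [outQ, hu]
    | some u =>
      simp only [Option.elim, Matrix.single_apply, inP, outQ, hu, if_true, ite_mul, mul_ite,
        mul_one, mul_zero, zero_mul]
      by_cases h1 : i = ⟨v, s2 v⟩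
      · by_cases h2 : j = ⟨u, r2 u⟩
        · simp [h1, h2]
        · simp [h1, h2, eq_comm]
      · simp [h1, eq_comm]

/-- the columns of the solution -/
theorem block_mul (A : ∀ v, Matrix (ι v) (ι v) ℝ) (s1 s2 : ∀ v, ι v) (c1 c2 : V → ℝ)
    (h : ∀ v, Bool → ι v → ℝ)
    (hh : ∀ v a, (A v).mulVec (h v a) =
      Pi.single (if a then s1 v else s2 v) (if a then c1 v else c2 v)) :
    Matrix.blockDiagonal' A * solH h = inP s1 s2 c1 c2 := by
  ext ⟨v, i⟩ ⟨w, a⟩
  rw [Matrix.mul_apply, Fintype.sum_sigma, Finset.sum_eq_single v]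
  · by_cases hv : v = w
    · subst hv
      have := congrFun (hh v a) i
      rw [Matrix.mulVec, dotProduct] at this
      simp only [Matrix.blockDiagonal'_apply_eq, solH, if_true]
      rw [this]
      by_cases hi : i = (if a then s1 v else s2 v)
      · subst hi
        simp [inP]
      · rw [Pi.single_eq_of_ne hi, inP, if_neg]
        simpa using hi
    · simp only [solH, hv, if_false, mul_zero, Finset.sum_const_zero]
      rw [inP, if_neg]
      intro h
      exact hv (congrArg Sigma.fst h)
  · intro u _ hu
    refine Finset.sum_eq_zero fun j _ => ?_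
    rw [Matrix.blockDiagonal'_apply_ne _ _ _ (Ne.symm hu), zero_mul]
  · intro h
    exact absurd (Finset.mem_univ _) h

/-- the port matrix -/
theorem rowE_mul (up dn : V → Option V) (L R b : V → ℝ) (x : ℝ)
    (hL : ∀ v, L v - R v = (1 - x) * b v) (hb : ∀ v, b v + R v ≠ 0) :
    rowE x (fun v => b v + R v) * (1 - (resS fun a c v =>
      (if a then (if c then L v else x * b v) else (if c then b v else R v)) / (b v + R v)) *
        conN up dn) = portMat up dn x b R := by
  rw [Matrix.mul_sub, Matrix.mul_one, ← Matrix.mul_assoc]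
  have h1 : rowE x (fun v => b v + R v) * (resS fun a c v =>
      (if a then (if c then L v else x * b v) else (if c then b v else R v)) / (b v + R v)) =
      resS fun a c v => (if a then (if c then 1 else x) else (if c then b v else R v)) := by
    ext ⟨v, a⟩ ⟨w, c⟩
    rw [Matrix.mul_apply, Fintype.sum_prod_type, Finset.sum_eq_single v]
    · rw [Fintype.sum_bool]
      by_cases hv : v = w
      · subst hv
        have h2 := hL v
        have h3 := hb v
        cases a <;> cases c <;> simp [rowE, resS] <;> field_simp <;> linarith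
      · simp [resS, hv]
    · intro u _ hu
      simp [rowE, Ne.symm hu]
    · intro h
      exact absurd (Finset.mem_univ _) h
  rw [h1]
  ext ⟨v, a⟩ ⟨w, c⟩
  rw [Matrix.sub_apply, Matrix.mul_apply, Fintype.sum_prod_type, Finset.sum_eq_single v]
  · rw [Fintype.sum_bool]
    cases a <;> cases c <;> cases hu : up v <;> cases hd : dn v <;>
      simp [rowE, resS, conN, portMat, hu, hd] <;> split_ifs <;> ring
  · intro u _ hu
    simp [resS, Ne.symm hu]
  · intro h
    exact absurd (Finset.mem_univ _) h

end

/-- COMPDET -/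
theorem compDet : GoalCompDet := by
  intro V _ _ ι _ _ up dn A s1 s2 r1 r2 c1 c2 L R b x hN hL hb
  choose hdet hsol using hN
  have hsol1 : ∀ (v : V) (a : Bool), ∃ h : ι v → ℝ,
      (A v).mulVec h = Pi.single (if a then s1 v else s2 v) (if a then c1 v else c2 v) ∧
      (b v + R v) * h (r1 v) = (if a then L v else x * b v) ∧
      (b v + R v) * h (r2 v) = (if a then b v else R v) := by
    intro v a
    cases a
    · obtain ⟨h, e1, e2, e3⟩ := hsol v 0 1
      exact ⟨h, by simpa using e1, by simpa using e2, by simpa using e3⟩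
    · obtain ⟨h, e1, e2, e3⟩ := hsol v 1 0
      exact ⟨h, by simpa using e1, by simpa using e2, by simpa using e3⟩
  choose h h1 h2 h3 using hsol1
  have hE : (resS fun a c v => h v c (if a then r1 v else r2 v)) = (resS fun a c v =>
      (if a then (if c then L v else x * b v) else (if c then b v else R v)) / (b v + R v)) := by
    congr 1
    funext a c v
    have := hb v
    rw [eq_div_iff this]
    cases a
    · simpa [mul_comm] using h3 v c
    · simpa [mul_comm] using h2 v c
  have hD := block_mul A s1 s2 c1 c2 h h1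
  have hQ := outQ_mul up dn r1 r2 h
  have hdetE : (compMat up dn A s1 s2 r1 r2 c1 c2).det =
      (∏ v, (A v).det) * (1 - (resS fun a c v => h v c (if a then r1 v else r2 v)) *
        conN up dn).det := by
    rw [compMat_eq, ← hD]
    rw [Matrix.mul_assoc]
    nth_rewrite 1 [← Matrix.mul_one (Matrix.blockDiagonal' A)]
    rw [← Matrix.mul_sub, Matrix.det_mul, det_bd, Matrix.det_one_sub_mul_comm,
      hQ, Matrix.det_one_sub_mul_comm]
  rw [hdetE, hE, mul_assoc]
  congr 1
  rw [← rowE_mul up dn L R b x hL hb, Matrix.det_mul, det_rowE, mul_comm]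

end Pool.Agent.Helper55.PG
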